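import Mathlib
import Pool.Agent.Helper92.PO.Stmts

/-!
Module NUM: bounds for the numbers of states and rows.
-/

namespace Pool.Agent.Helper92.PO

theorem num_labs (n : ℕ) : (labs n).length = 4 * n + 2 := by
  unfold labs
  rw [List.length_cons, List.length_cons, List.length_flatMap]
  simp only [List.length_cons, List.length_nil, List.map_const', List.length_range, List.sum_replicate,
    smul_eq_mul]
  ring

theorem num_labs_tail (n : ℕ) : (labs n).tail.length = 4 * n + 1 := by
  rw [List.length_tail, num_labs]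
  omega

theorem num_ents (n : ℕ) : (ents n).length = (4 * n + 2) * (KK n + 1) := by
  unfold ents
  rw [List.length_flatMap]
  simp only [List.length_map, List.length_range, List.map_const', List.sum_replicate, smul_eq_mul, num_labs]

theorem num_allL {α : Type} (l : List α) (k : ℕ) : (allL l k).length = l.length ^ k := by
  induction k with
  | zero => rfl
  | succ k ih =>
    show ((allL l k).flatMap fun t => l.map fun a => a :: t).length = _
    rw [List.length_flatMap]
    simp only [List.length_map, List.map_const', List.sum_replicate, smul_eq_mul, ih]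
    rw [pow_succ]

theorem num_states (n : ℕ) : (states n).length = (4 * n + 2) * (ents n).length ^ (wd n) := by
  unfold states
  rw [List.length_flatMap]
  simp only [List.length_map, List.map_const', List.sum_replicate, smul_eq_mul, num_allL, num_labs]

theorem num_ents_le (n : ℕ) : (ents n).length ≤ (n + 2) ^ 5 := by
  rw [num_ents]
  unfold KK JJ LL
  have h1 : 4 * n + 2 ≤ (n + 2) ^ 2 := by nlinarith
  have h2 : (n + 2) * (2 * n + 2) + 1 ≤ (n + 2) ^ 3 := by
    have : (n + 2) ^ 3 = (n + 2) * (n ^ 2 + 4 * n + 4) := by ring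
    rw [this]
    nlinarith [sq_nonneg n]
  calc (4 * n + 2) * ((n + 2) * (2 * n + 2) + 1) ≤ (n + 2) ^ 2 * (n + 2) ^ 3 := Nat.mul_le_mul h1 h2
    _ = (n + 2) ^ 5 := by ring

theorem num_kk (n : ℕ) : KK n * (4 * n + 1) + 1 ≤ (n + 2) ^ 5 := by
  have h := num_ents_le n
  rw [num_ents] at h
  nlinarith

/-- number of rows with exactly `j` entries -/
def num_c (X : List Row) (j : ℕ) : ℕ := X.countP (fun ξ => decide (ξ.length = j))

theorem num_sum (X : List Row) (s : ℕ) (h : ∀ ξ ∈ X, ξ.length ≤ s) :
    X.length = ∑ j ∈ Finset.range (s + 1), num_c X j := by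
  induction X with
  | nil => simp [num_c]
  | cons ξ X ih =>
    have h1 := ih (fun η hη => h η (List.mem_cons_of_mem _ hη))
    have h2 : ξ.length ≤ s := h ξ List.mem_cons_self
    have h3 : ∀ j, num_c (ξ :: X) j = num_c X j + (if ξ.length = j then 1 else 0) := by
      intro j
      unfold num_c
      rw [List.countP_cons]
      simp only [decide_eq_true_eq]
    rw [List.length_cons, h1, Finset.sum_congr rfl (fun j _ => h3 j), Finset.sum_add_distrib,
      Finset.sum_ite_eq]
    rw [if_pos (Finset.mem_range.2 (by omega))]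

theorem num_flat (n k j : ℕ) (Z : List Row) :
    num_c (Z.flatMap fun ξ => (labs n).tail.map fun v => (k, v) :: ξ) (j + 1)
      = (4 * n + 1) * num_c Z j := by
  induction Z with
  | nil => simp [num_c]
  | cons ξ Z ih =>
    unfold num_c at ih ⊢
    rw [List.flatMap_cons, List.countP_append, ih, List.countP_cons, List.countP_map]
    have h1 : ((fun ξ : Row => decide (ξ.length = j + 1)) ∘ fun v => (k, v) :: ξ)
        = fun _ : Lab => decide (ξ.length = j) := by
      funext v
      simp only [Function.comp, List.length_cons, Nat.add_right_cancel_iff]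
    rw [h1]
    by_cases h : ξ.length = j
    · simp only [h, decide_true, List.countP_true, if_true, num_labs_tail]
      ring
    · simp only [h, decide_false, List.countP_false]
      simp

theorem num_flat0 (n k : ℕ) (Z : List Row) :
    num_c (Z.flatMap fun ξ => (labs n).tail.map fun v => (k, v) :: ξ) 0 = 0 := by
  unfold num_c
  rw [List.countP_eq_zero]
  intro η hη
  rw [List.mem_flatMap] at hη
  obtain ⟨ξ, _, h⟩ := hη
  rw [List.mem_map] at h
  obtain ⟨v, _, rfl⟩ := h
  simp

theorem num_step (n k : ℕ) (X : List Row) (hX : ∀ ξ ∈ X, ξ.length ≤ Nat.sqrt n) :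
    (∀ ξ ∈ rowStep n X k, ξ.length ≤ Nat.sqrt n) ∧ num_c (rowStep n X k) 0 = num_c X 0 ∧
    ∀ j, num_c (rowStep n X k) (j + 1) ≤ num_c X (j + 1) + (4 * n + 1) * num_c X j := by
  refine ⟨?_, ?_, ?_⟩
  · intro ξ hξ
    unfold rowStep at hξ
    rw [List.mem_append] at hξ
    rcases hξ with h | h
    · exact hX ξ h
    · rw [List.mem_flatMap] at h
      obtain ⟨η, hη, h⟩ := h
      rw [List.mem_map] at h
      obtain ⟨v, _, rfl⟩ := h
      rw [List.mem_filter] at hη
      have := hη.2
      rw [decide_eq_true_eq] at this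
      rw [List.length_cons]
      omega
  · have h1 := num_flat0 n k (X.filter fun ξ => decide (ξ.length < Nat.sqrt n))
    unfold num_c at h1 ⊢
    unfold rowStep
    rw [List.countP_append, h1]
    rfl
  · intro j
    have h1 := num_flat n k j (X.filter fun ξ => decide (ξ.length < Nat.sqrt n))
    have h2 : num_c (X.filter fun ξ => decide (ξ.length < Nat.sqrt n)) j ≤ num_c X j :=
      List.Sublist.countP_le List.filter_sublist
    have h3 : num_c (rowStep n X k) (j + 1) = num_c X (j + 1) +
        num_c ((X.filter fun ξ => decide (ξ.length < Nat.sqrt n)).flatMap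
          fun ξ => (labs n).tail.map fun v => (k, v) :: ξ) (j + 1) := by
      unfold num_c rowStep
      rw [List.countP_append]
    rw [h3, h1]
    exact Nat.add_le_add_left (Nat.mul_le_mul_left _ h2) _

theorem num_rows (n i : ℕ) :
    (∀ ξ ∈ (List.range i).foldl (rowStep n) [[]], ξ.length ≤ Nat.sqrt n) ∧
    ∀ j, num_c ((List.range i).foldl (rowStep n) [[]]) j ≤ (i * (4 * n + 1)) ^ j := by
  induction i with
  | zero =>
    refine ⟨?_, ?_⟩
    · intro ξ hξ
      simp only [List.range_zero, List.foldl_nil, List.mem_singleton] at hξ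
      rw [hξ]
      exact Nat.zero_le _
    · intro j
      cases j with
      | zero => simp [num_c]
      | succ j => simp [num_c]
  | succ i ih =>
    rw [List.range_succ, List.foldl_append, List.foldl_cons, List.foldl_nil]
    obtain ⟨h1, h2, h3⟩ := num_step n i _ ih.1
    refine ⟨h1, ?_⟩
    intro j
    cases j with
    | zero =>
      rw [h2]
      have := ih.2 0
      simpa using this
    | succ j =>
      refine le_trans (h3 j) ?_
      have e1 := ih.2 (j + 1)
      have e2 := ih.2 j
      have e3 : (i * (4 * n + 1)) ^ j ≤ ((i + 1) * (4 * n + 1)) ^ j :=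
        Nat.pow_le_pow_left (Nat.mul_le_mul_right _ (Nat.le_succ i)) j
      calc num_c ((List.range i).foldl (rowStep n) [[]]) (j + 1)
            + (4 * n + 1) * num_c ((List.range i).foldl (rowStep n) [[]]) j
          ≤ (i * (4 * n + 1)) ^ (j + 1) + (4 * n + 1) * (i * (4 * n + 1)) ^ j :=
            Nat.add_le_add e1 (Nat.mul_le_mul_left _ e2)
        _ = (i * (4 * n + 1)) ^ j * ((i + 1) * (4 * n + 1)) := by ring
        _ ≤ ((i + 1) * (4 * n + 1)) ^ j * ((i + 1) * (4 * n + 1)) := Nat.mul_le_mul_right _ e3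
        _ = ((i + 1) * (4 * n + 1)) ^ (j + 1) := by ring

theorem st_NUM : ST_NUM := by
  intro n
  have hb : 0 < n + 2 := by omega
  have hw : wd n = Nat.sqrt n + 1 := rfl
  have he := num_ents_le n
  refine ⟨?_, ?_, ?_⟩
  · have h1 : (ents n).length + 1 ≤ (n + 2) ^ 10 := by
      have h2 : (n + 2) ^ 5 + 1 ≤ (n + 2) ^ 6 := by
        have : 1 ≤ (n + 2) ^ 5 := Nat.one_le_pow _ _ hb
        calc (n + 2) ^ 5 + 1 ≤ (n + 2) ^ 5 * 2 := by omega
          _ ≤ (n + 2) ^ 5 * (n + 2) := Nat.mul_le_mul_left _ (by omega)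
          _ = (n + 2) ^ 6 := by ring
      have h3 : (n + 2) ^ 6 ≤ (n + 2) ^ 10 := Nat.pow_le_pow_right hb (by omega)
      omega
    calc ((ents n).length + 1) ^ (wd n) ≤ ((n + 2) ^ 10) ^ (wd n) := Nat.pow_le_pow_left h1 _
      _ = bd n := by rw [← pow_mul, hw]; rfl
  · rw [num_states]
    have h1 : 4 * n + 2 ≤ (n + 2) ^ 2 := by nlinarith
    calc (4 * n + 2) * (ents n).length ^ (wd n) ≤ (n + 2) ^ 2 * ((n + 2) ^ 5) ^ (wd n) :=
          Nat.mul_le_mul h1 (Nat.pow_le_pow_left he _)
      _ = (n + 2) ^ (2 + 5 * wd n) := by rw [← pow_mul, ← pow_add]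
      _ ≤ (n + 2) ^ (10 * (Nat.sqrt n + 1)) := Nat.pow_le_pow_right hb (by omega)
      _ = bd n := rfl
  · intro i hi
    obtain ⟨h1, h2⟩ := num_rows n i
    rw [num_sum _ _ h1]
    have hx : i * (4 * n + 1) + 1 ≤ (n + 2) ^ 5 :=
      le_trans (Nat.add_le_add_right (Nat.mul_le_mul_right _ hi) 1) (num_kk n)
    have h3 : ∀ j ∈ Finset.range (Nat.sqrt n + 1),
        num_c ((List.range i).foldl (rowStep n) [[]]) j ≤ ((n + 2) ^ 5) ^ (Nat.sqrt n) := by
      intro j hj
      rw [Finset.mem_range] at hj
      refine le_trans (h2 j) ?_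
      calc (i * (4 * n + 1)) ^ j ≤ ((n + 2) ^ 5) ^ j := Nat.pow_le_pow_left (by omega) _
        _ ≤ ((n + 2) ^ 5) ^ (Nat.sqrt n) :=
          Nat.pow_le_pow_right (Nat.one_le_pow _ _ hb) (by omega)
    have h4 := Finset.sum_le_card_nsmul _ _ _ h3
    rw [Finset.card_range, smul_eq_mul] at h4
    refine le_trans h4 ?_
    have h5 : Nat.sqrt n + 1 ≤ n + 2 := by
      have := Nat.sqrt_le_self n
      omega
    calc (Nat.sqrt n + 1) * ((n + 2) ^ 5) ^ (Nat.sqrt n)
        ≤ (n + 2) ^ 1 * ((n + 2) ^ 5) ^ (Nat.sqrt n) := by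
          rw [pow_one]; exact Nat.mul_le_mul_right _ h5
      _ = (n + 2) ^ (1 + 5 * Nat.sqrt n) := by rw [← pow_mul, ← pow_add]
      _ ≤ (n + 2) ^ (10 * (Nat.sqrt n + 1)) := Nat.pow_le_pow_right hb (by omega)
      _ = bd n := rfl

end Pool.Agent.Helper92.PO
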